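import Pool.Agent.H806R3.TubeF

/-!
# A Bedford-McMullen carpet that is not tube null

The carpet with `3` columns, `9` rows and all cells except the corner cell `(0,0)`.
-/

set_option autoImplicit false

namespace Pool.Agent.Results.MP_ef0505_an.NotTubeNull

open MeasureTheory Set Pool.Agent.H806R3.Tube

/-- the affine map `S_(i,j)(x,y) = ((x+i)/m, (y+j)/n)` -/
noncomputable def cellMap (m n : ℕ) (d : ℕ × ℕ) (z : ℝ × ℝ) : ℝ × ℝ :=
  ((z.1 + d.1) / m, (z.2 + d.2) / n)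

/-- `F` is the Bedford-McMullen carpet `F(m,n,D)`: the nonempty compact subset of the unit square
which is the union of its images under the maps `S_d`, `d ∈ D`. -/
def IsCarpet (m n : ℕ) (D : Set (ℕ × ℕ)) (F : Set (ℝ × ℝ)) : Prop :=
  F.Nonempty ∧ IsCompact F ∧ F ⊆ Icc 0 1 ×ˢ Icc 0 1 ∧ F = ⋃ d ∈ D, cellMap m n d '' F

/-- The open `w`-neighbourhood of the line `a x + b y = s`, when `a² + b² = 1`. -/
def LineTube (a b s w : ℝ) : Set (ℝ × ℝ) := {z | |a * z.1 + b * z.2 - s| < w}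

/-- Tube null, tubes being neighbourhoods of lines: for every `δ > 0` there are countably many
lines and radii `w i ≥ 0` of total sum less than `δ` such that the open `w i`-neighbourhoods
of the lines cover `E`. -/
def TubeNullLines (E : Set (ℝ × ℝ)) : Prop :=
  ∀ δ : ℝ, 0 < δ → ∃ a b s w : ℕ → ℝ, (∀ i, a i ^ 2 + b i ^ 2 = 1) ∧ (∀ i, 0 ≤ w i) ∧
    Summable w ∧ ∑' i, w i < δ ∧ E ⊆ ⋃ i, LineTube (a i) (b i) (s i) (w i)

/-- The open `ε`-neighbourhood (Euclidean) of the line segment from `P` to `Q`. -/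
def SegTube (P Q : ℝ × ℝ) (ε : ℝ) : Set (ℝ × ℝ) :=
  {z | ∃ t ∈ Icc (0 : ℝ) 1, (z.1 - (P.1 + t * (Q.1 - P.1))) ^ 2
    + (z.2 - (P.2 + t * (Q.2 - P.2))) ^ 2 < ε ^ 2}

/-- Tube null, tubes being neighbourhoods of line segments of length at least `ℓ`: for every
`δ > 0` there are countably many such tubes whose areas sum to less than `δ` and which cover `E`. -/
def TubeNullSegments (ℓ : ℝ) (E : Set (ℝ × ℝ)) : Prop :=
  ∀ δ : ℝ, 0 < δ → ∃ (P Q : ℕ → ℝ × ℝ) (ε : ℕ → ℝ),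
    (∀ i, 0 ≤ ε i ∧ ℓ ^ 2 ≤ ((Q i).1 - (P i).1) ^ 2 + ((Q i).2 - (P i).2) ^ 2) ∧
    ∑' i, volume (SegTube (P i) (Q i) (ε i)) < ENNReal.ofReal δ ∧
    E ⊆ ⋃ i, SegTube (P i) (Q i) (ε i)

/-- the digit set: all cells of the `3 × 9` grid except `(0,0)` -/
def D0 : Set (ℕ × ℕ) := {d | d.1 < 3 ∧ d.2 < 9 ∧ d ≠ (0, 0)}

/-! ### existence of the carpet -/

noncomputable def val (p : ℕ) (a : ℕ → ℕ) : ℝ := ∑' t, (a t : ℝ) / (p : ℝ) ^ (t + 1)

lemma bound_term {p : ℕ} (hp : 2 ≤ p) {a : ℕ} (ha : a < p) (t : ℕ) :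
    (a : ℝ) / (p : ℝ) ^ (t + 1) ≤ ((p : ℝ) - 1) / p * (1 / (p : ℝ)) ^ t := by
  have hp' : (0 : ℝ) < p := by positivity
  have h1 : (a : ℝ) ≤ p - 1 := by
    have : a + 1 ≤ p := ha
    have : ((a : ℝ) + 1) ≤ p := by exact_mod_cast this
    linarith
  have h2 : ((p : ℝ) - 1) / p * (1 / (p : ℝ)) ^ t = (p - 1) / (p : ℝ) ^ (t + 1) := by
    rw [one_div_pow, pow_succ]; field_simp
  rw [h2]
  exact div_le_div_of_nonneg_right h1 (by positivity)

lemma summable_bound {p : ℕ} (hp : 2 ≤ p) :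
    Summable (fun t : ℕ => ((p : ℝ) - 1) / p * (1 / (p : ℝ)) ^ t) := by
  apply Summable.mul_left
  apply summable_geometric_of_lt_one (by positivity)
  rw [div_lt_one (by positivity)]
  have : (2 : ℝ) ≤ p := by exact_mod_cast hp
  linarith

lemma summable_val {p : ℕ} (hp : 2 ≤ p) {a : ℕ → ℕ} (ha : ∀ t, a t < p) :
    Summable (fun t => (a t : ℝ) / (p : ℝ) ^ (t + 1)) :=
  Summable.of_nonneg_of_le (fun _ => by positivity) (fun t => bound_term hp (ha t) t)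
    (summable_bound hp)

lemma val_mem {p : ℕ} (hp : 2 ≤ p) {a : ℕ → ℕ} (ha : ∀ t, a t < p) : val p a ∈ Icc (0 : ℝ) 1 := by
  have hp2 : (2 : ℝ) ≤ p := by exact_mod_cast hp
  have hp' : (0 : ℝ) < p := by linarith
  constructor
  · exact tsum_nonneg (fun _ => by positivity)
  · have h1 := (summable_val hp ha).tsum_le_tsum (fun t => bound_term hp (ha t) t) (summable_bound hp)
    refine h1.trans (le_of_eq ?_)
    rw [tsum_mul_left, tsum_geometric_of_lt_one (by positivity) (by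
      rw [div_lt_one (by positivity)]; linarith)]
    have : (p : ℝ) - 1 ≠ 0 := by linarith
    field_simp

lemma val_succ {p : ℕ} (hp : 2 ≤ p) {a : ℕ → ℕ} (ha : ∀ t, a t < p) :
    val p a = (val p (fun t => a (t + 1)) + a 0) / p := by
  have hp' : (0 : ℝ) < p := by positivity
  unfold val
  rw [(summable_val hp ha).tsum_eq_zero_add, add_div, ← tsum_div_const, add_comm]
  congr 1
  · congr 1
    ext t
    rw [pow_succ (p : ℝ) (t + 1)]
    field_simp
  · simp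

abbrev Cell : Type := {d : Fin 3 × Fin 9 // d ≠ (0, 0)}

noncomputable def code (ω : ℕ → Cell) : ℝ × ℝ :=
  (val 3 (fun t => (ω t).1.1), val 9 (fun t => (ω t).1.2))

lemma continuous_val {p : ℕ} (hp : 2 ≤ p) (g : Cell → ℕ) (hg : ∀ c, g c < p) :
    Continuous (fun ω : ℕ → Cell => val p (fun t => g (ω t))) := by
  unfold val
  refine continuous_tsum (fun t => ?_) (summable_bound hp) (fun t ω => ?_)
  · have h1 : Continuous (fun c : Cell => (g c : ℝ) / (p : ℝ) ^ (t + 1)) := continuous_of_discreteTopology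
    exact h1.comp (continuous_apply t)
  · rw [Real.norm_of_nonneg (by positivity)]
    exact bound_term hp (hg _) t

lemma continuous_code : Continuous code :=
  (continuous_val (p := 3) (by norm_num) (fun c => (c.1.1 : ℕ)) (fun c => c.1.1.2)).prodMk
    (continuous_val (p := 9) (by norm_num) (fun c => (c.1.2 : ℕ)) (fun c => c.1.2.2))

lemma code_cons (ω : ℕ → Cell) :
    code ω = cellMap 3 9 (((ω 0).1.1 : ℕ), ((ω 0).1.2 : ℕ)) (code (fun t => ω (t + 1))) := by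
  unfold code cellMap
  rw [val_succ (p := 3) (by norm_num) (fun t => (ω t).1.1.2),
    val_succ (p := 9) (by norm_num) (fun t => (ω t).1.2.2)]

theorem exists_carpet : ∃ F, IsCarpet 3 9 D0 F := by
  refine ⟨range code, ?_, ?_, ?_, ?_⟩
  · exact ⟨code (fun _ => ⟨(1, 1), by decide⟩), mem_range_self _⟩
  · exact isCompact_range continuous_code
  · rintro _ ⟨ω, rfl⟩
    exact ⟨val_mem (by norm_num) (fun t => (ω t).1.1.2), val_mem (by norm_num) (fun t => (ω t).1.2.2)⟩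
  · apply Subset.antisymm
    · rintro _ ⟨ω, rfl⟩
      rw [code_cons]
      refine mem_iUnion₂.mpr ⟨(((ω 0).1.1 : ℕ), ((ω 0).1.2 : ℕ)), ?_, _, mem_range_self _, rfl⟩
      refine ⟨(ω 0).1.1.2, (ω 0).1.2.2, fun h => (ω 0).2 ?_⟩
      rw [Prod.mk.injEq] at h
      exact Prod.ext (Fin.ext h.1) (Fin.ext h.2)
    · intro z hz
      obtain ⟨d, hd, _, ⟨ω, rfl⟩, rfl⟩ := mem_iUnion₂.mp hz
      obtain ⟨h1, h2, h3⟩ := hd
      let c : Cell := ⟨(⟨d.1, h1⟩, ⟨d.2, h2⟩), fun h => h3 (by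
        rw [Prod.mk.injEq] at h
        exact Prod.ext (congrArg Fin.val h.1) (congrArg Fin.val h.2))⟩
      refine ⟨fun t => Nat.casesOn t c ω, ?_⟩
      rw [code_cons]
      rfl

/-! ### the area of a tube around a long segment -/

lemma area_aux (P Q : ℝ × ℝ) (ε ℓ : ℝ) (hε : 0 ≤ ε) (hℓ : 0 < ℓ)
    (h : ℓ ^ 2 ≤ (Q.1 - P.1) ^ 2 + (Q.2 - P.2) ^ 2) (hxy : |Q.2 - P.2| ≤ |Q.1 - P.1|) :
    ENNReal.ofReal (ε * ℓ) ≤ volume (SegTube P Q ε) := by
  set X : ℝ := Q.1 - P.1 with hX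
  set Y : ℝ := Q.2 - P.2 with hY
  have hYX : Y ^ 2 ≤ X ^ 2 := sq_le_sq.mpr hxy
  have hXl : ℓ ≤ 2 * |X| := by
    have : ℓ ^ 2 ≤ (2 * |X|) ^ 2 := by
      rw [mul_pow, sq_abs]; nlinarith [sq_nonneg X]
    exact le_of_sq_le_sq this (by positivity)
  have hX0 : X ≠ 0 := by
    intro h0
    rw [h0, abs_zero] at hXl
    linarith
  let g : ℝ → ℝ := fun x => P.2 + (x - P.1) / X * Y
  have hg : Continuous g := by fun_prop
  let I : Set ℝ := Ioo (min P.1 Q.1) (max P.1 Q.1)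
  have hsub : regionBetween (fun x => g x - ε) (fun x => g x + ε) I ⊆ SegTube P Q ε := by
    rintro ⟨x, y⟩ ⟨hx, hy⟩
    simp only at hx hy
    refine ⟨(x - P.1) / X, ⟨?_, ?_⟩, ?_⟩
    · rcases lt_or_gt_of_ne hX0 with h1 | h1
      · apply div_nonneg_of_nonpos _ h1.le
        have : Q.1 < P.1 := by linarith
        have h2 : x < max P.1 Q.1 := hx.2
        rw [max_eq_left this.le] at h2
        linarith
      · apply div_nonneg _ h1.le
        have : P.1 < Q.1 := by linarith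
        have h2 : min P.1 Q.1 < x := hx.1
        rw [min_eq_left this.le] at h2
        linarith
    · rcases lt_or_gt_of_ne hX0 with h1 | h1
      · rw [div_le_one_of_neg h1]
        have : Q.1 < P.1 := by linarith
        have h2 : min P.1 Q.1 < x := hx.1
        rw [min_eq_right this.le] at h2
        linarith
      · rw [div_le_one h1]
        have : P.1 < Q.1 := by linarith
        have h2 : x < max P.1 Q.1 := hx.2
        rw [max_eq_right this.le] at h2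
        linarith
    · have e1 : x - (P.1 + (x - P.1) / X * (Q.1 - P.1)) = 0 := by
        rw [← hX]; field_simp; ring
      have e2 : P.2 + (x - P.1) / X * (Q.2 - P.2) = g x := rfl
      simp only
      rw [e1, e2]
      have h3 : |y - g x| < ε := by
        rw [abs_lt]
        constructor <;> linarith [hy.1, hy.2]
      have h4 : (y - g x) ^ 2 < ε ^ 2 := by
        rw [← sq_abs]
        exact pow_lt_pow_left₀ h3 (abs_nonneg _) (by norm_num)
      linarith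
  refine le_trans ?_ (measure_mono hsub)
  have hIfin : volume I < ⊤ := by simp [I]
  have hvol : volume (regionBetween (fun x => g x - ε) (fun x => g x + ε) I)
      = ENNReal.ofReal (∫ x in I, ((fun x => g x + ε) - (fun x => g x - ε)) x) := by
    rw [Measure.volume_eq_prod]
    refine volume_regionBetween_eq_integral ?_ ?_ measurableSet_Ioo (fun x _ => by linarith)
    · exact ((hg.sub continuous_const).integrableOn_Icc (a := min P.1 Q.1) (b := max P.1 Q.1)).mono_set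
        Ioo_subset_Icc_self
    · exact ((hg.add continuous_const).integrableOn_Icc (a := min P.1 Q.1) (b := max P.1 Q.1)).mono_set
        Ioo_subset_Icc_self
  rw [hvol]
  apply ENNReal.ofReal_le_ofReal
  have h5 : ∀ x, ((fun x => g x + ε) - (fun x => g x - ε)) x = 2 * ε := by
    intro x
    simp only [Pi.sub_apply]
    ring
  simp only [h5]
  rw [setIntegral_const]
  have h6 : volume.real I = |X| := by
    simp only [I, Measure.real, Real.volume_Ioo]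
    rw [ENNReal.toReal_ofReal (by linarith [min_le_max (a := P.1) (b := Q.1)]), max_sub_min_eq_abs,
      abs_sub_comm]
  rw [h6, smul_eq_mul]
  nlinarith

lemma segTube_swap (P Q : ℝ × ℝ) (ε : ℝ) :
    volume (SegTube P Q ε) = volume (SegTube P.swap Q.swap ε) := by
  have h : MeasurePreserving (MeasurableEquiv.prodComm (α := ℝ) (β := ℝ))
      ((volume : Measure ℝ).prod (volume : Measure ℝ)) ((volume : Measure ℝ).prod (volume : Measure ℝ)) :=
    Measure.measurePreserving_swap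
  have h2 := MeasurePreserving.measure_preimage_equiv (f := MeasurableEquiv.prodComm (α := ℝ) (β := ℝ))
    h (SegTube P.swap Q.swap ε)
  rw [Measure.volume_eq_prod, ← h2]
  congr 1
  ext z
  have e1 : (MeasurableEquiv.prodComm z).1 = z.2 := rfl
  have e2 : (MeasurableEquiv.prodComm z).2 = z.1 := rfl
  simp only [SegTube, mem_preimage, Set.mem_ofPred_eq, e1, e2, Prod.fst_swap, Prod.snd_swap]
  constructor
  · rintro ⟨t, ht, h⟩
    exact ⟨t, ht, by linarith⟩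
  · rintro ⟨t, ht, h⟩
    exact ⟨t, ht, by linarith⟩

lemma area_segTube (P Q : ℝ × ℝ) (ε ℓ : ℝ) (hε : 0 ≤ ε) (hℓ : 0 < ℓ)
    (h : ℓ ^ 2 ≤ (Q.1 - P.1) ^ 2 + (Q.2 - P.2) ^ 2) :
    ENNReal.ofReal (ε * ℓ) ≤ volume (SegTube P Q ε) := by
  rcases le_total |Q.2 - P.2| |Q.1 - P.1| with h1 | h1
  · exact area_aux P Q ε ℓ hε hℓ h h1
  · rw [segTube_swap]
    exact area_aux P.swap Q.swap ε ℓ hε hℓ (by simp only [Prod.fst_swap, Prod.snd_swap]; linarith) h1

lemma segTube_subset (P Q : ℝ × ℝ) (ε : ℝ) (hε : 0 ≤ ε)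
    (h : 0 < (Q.1 - P.1) ^ 2 + (Q.2 - P.2) ^ 2) :
    ∃ a b s : ℝ, a ^ 2 + b ^ 2 = 1 ∧ SegTube P Q ε ⊆ Strip a b s ε := by
  set R : ℝ := Real.sqrt ((Q.1 - P.1) ^ 2 + (Q.2 - P.2) ^ 2) with hR
  have hR2 : R ^ 2 = (Q.1 - P.1) ^ 2 + (Q.2 - P.2) ^ 2 := Real.sq_sqrt h.le
  have hRpos : 0 < R := Real.sqrt_pos.mpr h
  refine ⟨-(Q.2 - P.2) / R, (Q.1 - P.1) / R,
    -(Q.2 - P.2) / R * P.1 + (Q.1 - P.1) / R * P.2, ?_, ?_⟩
  · rw [div_pow, div_pow, hR2, neg_sq, ← add_div, add_comm, div_self h.ne']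
  · rintro z ⟨t, _, hz⟩
    unfold Strip
    rw [Set.mem_ofPred_eq]
    set u : ℝ := z.1 - (P.1 + t * (Q.1 - P.1)) with hu
    set v : ℝ := z.2 - (P.2 + t * (Q.2 - P.2)) with hv
    have e : -(Q.2 - P.2) / R * z.1 + (Q.1 - P.1) / R * z.2
        - (-(Q.2 - P.2) / R * P.1 + (Q.1 - P.1) / R * P.2)
        = (-(Q.2 - P.2) * u + (Q.1 - P.1) * v) / R := by
      rw [hu, hv]; field_simp; ring
    rw [e, abs_div, abs_of_pos hRpos, div_lt_iff₀ hRpos]
    apply abs_lt_of_sq_lt_sq _ (by positivity)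
    rw [mul_pow, hR2]
    have hcs : (-(Q.2 - P.2) * u + (Q.1 - P.1) * v) ^ 2
        ≤ ((Q.1 - P.1) ^ 2 + (Q.2 - P.2) ^ 2) * (u ^ 2 + v ^ 2) := by
      nlinarith [sq_nonneg ((Q.1 - P.1) * u + (Q.2 - P.2) * v)]
    have h3 : ((Q.1 - P.1) ^ 2 + (Q.2 - P.2) ^ 2) * (u ^ 2 + v ^ 2)
        < ((Q.1 - P.1) ^ 2 + (Q.2 - P.2) ^ 2) * ε ^ 2 := mul_lt_mul_of_pos_left hz h
    linarith

/-! ### the carpet is not tube null -/

lemma cover_bound {F : Set (ℝ × ℝ)} (hF : IsCarpet 3 9 D0 F) (a b s w : ℕ → ℝ)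
    (hab : ∀ n, a n ^ 2 + b n ^ 2 = 1) (hw : ∀ n, 0 ≤ w n)
    (hcov : F ⊆ ⋃ n, Strip (a n) (b n) (s n) (w n)) :
    ∃ S : Finset ℕ, 1 / (8 * KK) ≤ ∑ n ∈ S, w n := by
  obtain ⟨hne, hcpt, h01, hself⟩ := hF
  obtain ⟨S, hS⟩ := hcpt.elim_finite_subcover _ (fun n => isOpen_strip _ _ _ _) hcov
  refine ⟨S, finite_cover_bound hne (fun z hz => ?_) (fun i j hi hj hij z hz => ?_) S a b s w hab hw hS⟩
  · have := h01 hz
    exact ⟨⟨this.1.1, this.1.2⟩, this.2.1, this.2.2⟩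
  · rw [hself]
    refine mem_iUnion₂.mpr ⟨(i, j), ⟨hi, hj, fun h => hij ?_⟩, z, hz, rfl⟩
    rw [Prod.mk.injEq] at h
    rw [h.1, h.2]
    simp [W0]

theorem not_lines {F : Set (ℝ × ℝ)} (hF : IsCarpet 3 9 D0 F) : ¬ TubeNullLines F := by
  intro hnull
  have hKK := KK_ge
  obtain ⟨a, b, s, w, hab, hw, hsum, hlt, hcov⟩ := hnull (1 / (8 * KK)) (by positivity)
  obtain ⟨S, hS⟩ := cover_bound hF a b s w hab hw hcov
  have := hsum.sum_le_tsum S (fun n _ => hw n)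
  linarith

theorem not_segments {F : Set (ℝ × ℝ)} (hF : IsCarpet 3 9 D0 F) {ℓ : ℝ} (hℓ : 0 < ℓ) :
    ¬ TubeNullSegments ℓ F := by
  intro hnull
  have hKK := KK_ge
  obtain ⟨P, Q, ε, hPQ, hlt, hcov⟩ := hnull (1 / (8 * KK) * ℓ) (by positivity)
  have hex : ∀ n, ∃ abs3 : ℝ × ℝ × ℝ, abs3.1 ^ 2 + abs3.2.1 ^ 2 = 1 ∧
      SegTube (P n) (Q n) (ε n) ⊆ Strip abs3.1 abs3.2.1 abs3.2.2 (ε n) := by
    intro n
    have h1 : 0 < ((Q n).1 - (P n).1) ^ 2 + ((Q n).2 - (P n).2) ^ 2 :=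
      lt_of_lt_of_le (by positivity) (hPQ n).2
    obtain ⟨a, b, s, h2, h3⟩ := segTube_subset (P n) (Q n) (ε n) (hPQ n).1 h1
    exact ⟨(a, b, s), h2, h3⟩
  choose abs3 habs using hex
  obtain ⟨S, hS⟩ := cover_bound hF (fun n => (abs3 n).1) (fun n => (abs3 n).2.1)
    (fun n => (abs3 n).2.2) ε (fun n => (habs n).1) (fun n => (hPQ n).1)
    (hcov.trans (iUnion_mono (fun n => (habs n).2)))
  have h4 : ENNReal.ofReal (∑ n ∈ S, ε n * ℓ) ≤ ∑' n, volume (SegTube (P n) (Q n) (ε n)) := by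
    rw [ENNReal.ofReal_sum_of_nonneg (fun n _ => mul_nonneg (hPQ n).1 hℓ.le)]
    refine le_trans (Finset.sum_le_sum (fun n _ => ?_)) (ENNReal.sum_le_tsum S)
    exact area_segTube _ _ _ _ (hPQ n).1 hℓ (hPQ n).2
  have h5 := lt_of_le_of_lt h4 hlt
  rw [← Finset.sum_mul, ENNReal.ofReal_lt_ofReal_iff (by positivity)] at h5
  have h6 := lt_of_mul_lt_mul_right h5 hℓ.le
  linarith

/-- There is a Bedford-McMullen carpet different from the unit square (its digit set is a proper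
nonempty subset of the grid) that is not tube null. -/
theorem result : ∃ (m n : ℕ) (D : Set (ℕ × ℕ)), 2 ≤ m ∧ m < n ∧ D.Nonempty ∧
    D ⊂ {d : ℕ × ℕ | d.1 < m ∧ d.2 < n} ∧ (∃ F, IsCarpet m n D F) ∧
    ∀ F, IsCarpet m n D F → ¬ TubeNullLines F ∧ ∀ ℓ : ℝ, 0 < ℓ → ¬ TubeNullSegments ℓ F := by
  refine ⟨3, 9, D0, by norm_num, by norm_num, ⟨(1, 1), by decide, by decide, by decide⟩, ?_,
    exists_carpet, fun F hF => ⟨not_lines hF, fun ℓ hℓ => not_segments hF hℓ⟩⟩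
  rw [ssubset_iff_subset_ne]
  refine ⟨fun d hd => ⟨hd.1, hd.2.1⟩, fun h => ?_⟩
  have h1 : ((0, 0) : ℕ × ℕ) ∈ {d : ℕ × ℕ | d.1 < 3 ∧ d.2 < 9} := ⟨by norm_num, by norm_num⟩
  rw [← h] at h1
  exact h1.2.2 rfl

end Pool.Agent.Results.MP_ef0505_an.NotTubeNull
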